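import Mathlib

set_option autoImplicit false

namespace Pool.Agent.H.MP_b542c4_co
open Complex

abbrev Ix := Fin 2 × ZMod 12

/-- incidence of the configuration with symbol 12 (4,1;4,5) -/
def Inc (p l : Ix) : Prop :=
  if p.1 = l.1 then p.2 = l.2 ∨ p.2 = l.2 + 4
  else if p.1 = 1 then p.2 = l.2 ∨ p.2 = l.2 + 1 else p.2 = l.2 + 6 ∨ p.2 = l.2 + 1

instance (p l : Ix) : Decidable (Inc p l) := by unfold Inc; infer_instance

def nx (l : Ix) : Ix := (l.1, l.2 + 4)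

theorem mem_line (a b z : ℂ) (h : a ≠ b) :
    z ∈ line[ℝ, a, b] ↔ (z.re - a.re) * (b.im - a.im) - (z.im - a.im) * (b.re - a.re) = 0 := by
  rw [mem_affineSpan_pair_iff_exists_lineMap_eq]
  have hre : ∀ r : ℝ, (AffineMap.lineMap a b r : ℂ).re = r * (b.re - a.re) + a.re := fun r => by
    simp [AffineMap.lineMap_apply]
  have him : ∀ r : ℝ, (AffineMap.lineMap a b r : ℂ).im = r * (b.im - a.im) + a.im := fun r => by
    simp [AffineMap.lineMap_apply]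
  constructor
  · rintro ⟨r, rfl⟩
    rw [hre, him]
    ring
  · intro H
    by_cases hr : b.re - a.re = 0
    · have hi : b.im - a.im ≠ 0 := fun hi => h (Complex.ext (by linarith) (by linarith))
      refine ⟨(z.im - a.im) / (b.im - a.im), ?_⟩
      rw [hr, mul_zero, sub_zero, mul_eq_zero] at H
      have := H.resolve_right hi
      apply Complex.ext
      · rw [hre, hr]; linarith
      · rw [him]; field_simp; ring
    · refine ⟨(z.re - a.re) / (b.re - a.re), ?_⟩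
      apply Complex.ext
      · rw [hre]; field_simp; ring
      · rw [him]; field_simp; linarith

section
variable {R : Type} [CommRing R] (φ : R →+* ℝ) (T : Ix → R × R)

def pt (p : Ix) : ℂ := ⟨φ (T p).1, φ (T p).2⟩

noncomputable def ln (l : Ix) : AffineSubspace ℝ ℂ := line[ℝ, pt φ T l, pt φ T (nx l)]

def det (p l : Ix) : R :=
  ((T p).1 - (T l).1) * ((T (nx l)).2 - (T l).2) - ((T p).2 - (T l).2) * ((T (nx l)).1 - (T l).1)

theorem sepL : ∀ l l' : Ix, l ≠ l' → ∃ p, Inc p l ∧ ¬ Inc p l' := by decide +kernel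

theorem nx_ne : ∀ l : Ix, l ≠ nx l := by decide +kernel

theorem real (hφ : Function.Injective φ) (hT : Function.Injective T)
    (hd : ∀ p l, det T p l = 0 ↔ Inc p l) :
    Function.Injective (pt φ T) ∧ Function.Injective (ln φ T) ∧
      (∀ l, Module.finrank ℝ (ln φ T l).direction = 1) ∧ ∀ p l, pt φ T p ∈ ln φ T l ↔ Inc p l := by
  have h1 : Function.Injective (pt φ T) := fun p q h => by
    apply hT
    have a := congrArg Complex.re h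
    have b := congrArg Complex.im h
    exact Prod.ext (hφ a) (hφ b)
  have h4 : ∀ p l, pt φ T p ∈ ln φ T l ↔ Inc p l := fun p l => by
    rw [ln, mem_line _ _ _ (h1.ne (nx_ne l)), ← hd, ← map_eq_zero_iff φ hφ]
    simp [pt, det]
  refine ⟨h1, fun l l' h => ?_, fun l => ?_, h4⟩
  · by_contra hne
    obtain ⟨p, a, b⟩ := sepL l l' hne
    exact b ((h4 p l').1 (h ▸ (h4 p l).2 a))
  · rw [ln, direction_affineSpan, vectorSpan_pair]
    exact finrank_span_singleton (vsub_ne_zero.2 (h1.ne (nx_ne l)))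
end

def TZ (p : Ix) : ℤ × ℤ :=
  [(-12, 0), (24, 24), (0, 12), (6, -9), (0, 24), (0, 0), (24, 18), (-12, -6), (12, 6), (6, 27),
   (12, -6), (12, 18), (24, 72), (-24, -24), (16, 16), (-48, 0), (24, -12), (4, 18), (-12, -54),
   (36, 42), (-4, 2), (60, 18), (-12, 30), (8, 0)].getD (12 * p.1.val + p.2.val) 0

theorem TZ_inj : Function.Injective TZ := by decide +kernel
theorem TZ_det : ∀ p l, det TZ p l = 0 ↔ Inc p l := by decide +kernel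

/-- coordinates in Z[sqrt 3] -/
def TA (p : Ix) : ℤ√3 × ℤ√3 :=
  ([(⟨2, 0⟩, ⟨0, 0⟩), (⟨0, 1⟩, ⟨1, 0⟩), (⟨1, 0⟩, ⟨0, 1⟩), (⟨0, 0⟩, ⟨2, 0⟩), (⟨-1, 0⟩, ⟨0, 1⟩),
   (⟨0, -1⟩, ⟨1, 0⟩), (⟨-2, 0⟩, ⟨0, 0⟩), (⟨0, -1⟩, ⟨-1, 0⟩), (⟨-1, 0⟩, ⟨0, -1⟩), (⟨0, 0⟩, ⟨-2, 0⟩),
   (⟨1, 0⟩, ⟨0, -1⟩), (⟨0, 1⟩, ⟨-1, 0⟩),
   (⟨-1, 1⟩, ⟨-1, 1⟩), (⟨2, -1⟩, ⟨1, 0⟩), (⟨-2, 1⟩, ⟨1, 0⟩), (⟨1, -1⟩, ⟨-1, 1⟩),
   (⟨-1, 0⟩, ⟨2, -1⟩), (⟨-1, 0⟩, ⟨-2, 1⟩), (⟨1, -1⟩, ⟨1, -1⟩), (⟨-2, 1⟩, ⟨-1, 0⟩),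
   (⟨2, -1⟩, ⟨-1, 0⟩), (⟨-1, 1⟩, ⟨1, -1⟩), (⟨1, 0⟩, ⟨-2, 1⟩), (⟨1, 0⟩, ⟨2, -1⟩)] :
     List (ℤ√3 × ℤ√3)).getD (12 * p.1.val + p.2.val) 0

theorem TA_inj : Function.Injective TA := by decide +kernel
theorem TA_det : ∀ p l, det TA p l = 0 ↔ Inc p l := by decide +kernel

def rt (p : Ix) : Ix := (p.1, p.2 + 1)
def fl (p : Ix) : Ix := (p.1, if p.1 = 0 then -p.2 else -p.2 - 3)

theorem TA_rot : ∀ p, 2 * (TA (rt p)).1 = ⟨0, 1⟩ * (TA p).1 - (TA p).2 ∧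
    2 * (TA (rt p)).2 = (TA p).1 + ⟨0, 1⟩ * (TA p).2 := by decide +kernel
theorem TA_fl : ∀ p, (TA (fl p)).1 = (TA p).1 ∧ (TA (fl p)).2 = -(TA p).2 := by decide +kernel
theorem TA_norm : ∀ i, (TA (1, i)).1 * (TA (1, i)).1 + (TA (1, i)).2 * (TA (1, i)).2 = ⟨8, -4⟩ := by
  decide +kernel

theorem TA_sum : ∑ p, (TA p).1 = 0 ∧ ∑ p, (TA p).2 = 0 := by decide +kernel

theorem cfg1 : ∀ l, (Finset.univ.filter fun p => Inc p l).card = 4 := by decide +kernel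
theorem cfg2 : ∀ p, (Finset.univ.filter fun l => Inc p l).card = 4 := by decide +kernel
theorem cfg3 : ∀ p q, p ≠ q → (Finset.univ.filter fun l => Inc p l ∧ Inc q l).card ≤ 1 := by
  decide +kernel
theorem cfg4 : ∀ p j, (Finset.univ.filter fun l => Inc p l ∧ l.1 = j).card = 2 := by decide +kernel
theorem cfg5 : ∀ l j, (Finset.univ.filter fun p => Inc p l ∧ p.1 = j).card = 2 := by decide +kernel

end Pool.Agent.H.MP_b542c4_co
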