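import Pool.Agent.H.MP_b542c4_co.Basic

set_option autoImplicit false

namespace Pool.Agent.H.MP_b542c4_co
open Complex DihedralGroup

noncomputable def ph : ℤ√3 →+* ℝ := Zsqrtd.toReal (by norm_num)

theorem ph_inj : Function.Injective ph :=
  Zsqrtd.toReal_injective _ fun n h => by
    have h1 : n ≤ 1 := by nlinarith
    have h2 : -1 ≤ n := by nlinarith
    interval_cases n <;> omega

theorem ph_mk (a b : ℤ) : ph ⟨a, b⟩ = a + b * √3 := by simp [ph, Zsqrtd.toReal_apply]

noncomputable abbrev PA : Ix → ℂ := pt ph TA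
noncomputable abbrev LA : Ix → AffineSubspace ℝ ℂ := ln ph TA

noncomputable def e (j : ZMod 12) : ℂ := ZMod.toCircle j

theorem e_add (i j : ZMod 12) : e (i + j) = e i * e j := by simp [e, AddChar.map_add_eq_mul]
theorem e_zero : e 0 = 1 := by simp [e]
theorem e_conj (i : ZMod 12) : (starRingEnd ℂ) (e i) = e (-i) := by
  rw [e, e, AddChar.map_neg_eq_inv, Circle.coe_inv_eq_conj]

theorem e_one : e 1 = ⟨√3 / 2, 1 / 2⟩ := by
  have : e 1 = exp ((Real.pi / 6 : ℝ) * I) := by
    rw [e, ZMod.toCircle_apply]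
    congr 1
    have : (1 : ZMod 12).val = 1 := rfl
    rw [this]
    push_cast
    ring
  rw [this]
  apply Complex.ext
  · rw [exp_ofReal_mul_I_re, Real.cos_pi_div_six]
  · rw [exp_ofReal_mul_I_im, Real.sin_pi_div_six]

theorem PA_rt (p : Ix) : PA (rt p) = e 1 * PA p := by
  obtain ⟨a, b⟩ := TA_rot p
  have a' := congrArg ph a
  have b' := congrArg ph b
  simp only [map_mul, map_sub, map_add, map_ofNat, ph_mk] at a' b'
  rw [e_one]
  apply Complex.ext <;> simp [pt] <;> push_cast at a' b' <;> linarith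

theorem PA_add (o : Fin 2) (i j : ZMod 12) : PA (o, i + j) = e j * PA (o, i) := by
  have : ∀ n : ℕ, PA (o, i + n) = e n * PA (o, i) := fun n => by
    induction n with
    | zero => simp [e_zero]
    | succ n ih =>
      have := PA_rt (o, i + n)
      rw [ih] at this
      push_cast
      rw [← add_assoc, e_add]
      exact this.trans (by ring)
  simpa using this j.val

theorem PA_fl (p : Ix) : PA (fl p) = (starRingEnd ℂ) (PA p) := by
  obtain ⟨a, b⟩ := TA_fl p
  apply Complex.ext <;> simp [pt, a, b]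

noncomputable def lin : DihedralGroup 12 → ℂ ≃ₗᵢ[ℝ] ℂ
  | r j => rotation (ZMod.toCircle j)
  | sr j => (rotation (ZMod.toCircle j)).trans conjLIE

theorem lin_r (j : ZMod 12) (z : ℂ) : lin (r j) z = e j * z := rfl
theorem lin_sr (j : ZMod 12) (z : ℂ) : lin (sr j) z = (starRingEnd ℂ) (e j * z) := rfl

noncomputable def iso : DihedralGroup 12 →* ℂ ≃ᵢ ℂ :=
  MonoidHom.mk' (fun d => (lin d).toIsometryEquiv) fun a b => by
    ext z
    change lin (a * b) z = lin a (lin b z)
    rcases a with a | a <;> rcases b with b | b <;>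
      simp only [r_mul_r, r_mul_sr, sr_mul_r, sr_mul_sr, lin_r, lin_sr, map_mul, e_conj,
        Complex.conj_conj, ← mul_assoc, ← e_add] <;> congr 2 <;> ring

theorem iso_apply (d : DihedralGroup 12) (z : ℂ) : iso d z = lin d z := rfl

def aP : DihedralGroup 12 → Ix → Ix
  | r j, p => (p.1, p.2 + j)
  | sr j, p => fl (p.1, p.2 + j)

def aL : DihedralGroup 12 → Ix → Ix
  | r j, p => (p.1, p.2 + j)
  | sr j, p => aP (sr j) (nx p)

theorem iso_P (d : DihedralGroup 12) (p : Ix) : iso d (PA p) = PA (aP d p) := by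
  rcases d with j | j
  · rw [iso_apply, lin_r, aP, PA_add]
  · rw [iso_apply, lin_sr, aP, PA_fl, PA_add]

theorem aL_pair : ∀ (d : DihedralGroup 12) (l : Ix),
    (aP d l = aL d l ∧ aP d (nx l) = nx (aL d l)) ∨ (aP d (nx l) = aL d l ∧ aP d l = nx (aL d l)) := by
  decide +kernel

theorem iso_L (d : DihedralGroup 12) (l : Ix) : iso d '' (LA l : Set ℂ) = LA (aL d l) := by
  have h := AffineSubspace.map_span (lin d).toLinearEquiv.toLinearMap.toAffineMap {PA l, PA (nx l)}
  have h' := congrArg (fun s : AffineSubspace ℝ ℂ => (s : Set ℂ)) h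
  simp only [AffineSubspace.coe_map, Set.image_pair] at h'
  refine Eq.trans h' ?_
  change ((line[ℝ, iso d (PA l), iso d (PA (nx l))] : AffineSubspace ℝ ℂ) : Set ℂ) = _
  rw [iso_P, iso_P]
  rcases aL_pair d l with ⟨a, b⟩ | ⟨a, b⟩
  · rw [a, b]; rfl
  · rw [a, b, Set.pair_comm]; rfl

theorem aP_surj : ∀ (d : DihedralGroup 12) (q : Ix), ∃ p, aP d p = q := by decide +kernel
theorem aL_surj : ∀ (d : DihedralGroup 12) (q : Ix), ∃ p, aL d p = q := by decide +kernel
theorem aP_fst : ∀ (d : DihedralGroup 12) (q : Ix), (aP d q).1 = q.1 := by decide +kernel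
theorem aL_fst : ∀ (d : DihedralGroup 12) (q : Ix), (aL d q).1 = q.1 := by decide +kernel
theorem aP_inj : ∀ (d : DihedralGroup 12), aP d (0, 0) = (0, 0) → aP d (0, 1) = (0, 1) → d = 1 := by
  decide +kernel

theorem realA : Function.Injective PA ∧ Function.Injective LA ∧
    (∀ l, Module.finrank ℝ (LA l).direction = 1) ∧ ∀ p l, PA p ∈ LA l ↔ Inc p l :=
  real ph TA ph_inj TA_inj TA_det

theorem iso_inj : Function.Injective iso := by
  rw [injective_iff_map_eq_one]
  intro d h
  apply aP_inj d <;> apply realA.1 <;> rw [← iso_P, h] <;> rfl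

theorem PA_zero : PA (0, 0) = 2 := by
  apply Complex.ext
  · change ph ⟨2, 0⟩ = _
    simp [ph_mk]
  · change ph ⟨0, 0⟩ = _
    simp [ph_mk]

theorem PA_sum : ∑ p, PA p = 0 := by
  apply Complex.ext
  · rw [re_sum]
    change ∑ p, ph (TA p).1 = 0
    rw [← map_sum, TA_sum.1, map_zero]
  · rw [im_sum]
    change ∑ p, ph (TA p).2 = 0
    rw [← map_sum, TA_sum.2, map_zero]

theorem mem_iso (g : ℂ ≃ᵢ ℂ) (h : g '' Set.range PA = Set.range PA) : ∃ d, iso d = g := by
  have h1 : ∀ p, ∃ q, PA q = g (PA p) := fun p => by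
    have : g (PA p) ∈ Set.range PA := h ▸ Set.mem_image_of_mem g ⟨p, rfl⟩
    exact this
  choose σ hσ using h1
  have hb : Function.Bijective σ := by
    apply Function.Injective.bijective_of_finite
    intro p q hpq
    apply realA.1
    apply g.injective
    rw [← hσ, ← hσ, hpq]
  have h0 : g 0 = 0 := by
    have s1 : ∑ p, PA (σ p) = 0 := by rw [hb.sum_comp PA, PA_sum]
    have s2 : ∑ p, g.toRealLinearIsometryEquiv (PA p) = 0 := by rw [← map_sum, PA_sum, map_zero]
    simp only [IsometryEquiv.toRealLinearIsometryEquiv_apply, Finset.sum_sub_distrib, ← hσ, s1,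
      Finset.sum_const] at s2
    simpa using s2
  obtain ⟨a, ha⟩ := linear_isometry_complex (g.toRealLinearIsometryEquivOfMapZero h0)
  have key : PA (σ (0, 0)) = a * 2 := by
    rw [hσ, PA_zero]
    rcases ha with ha | ha
    · exact congrArg (fun f : ℂ ≃ₗᵢ[ℝ] ℂ => f 2) ha
    · have := congrArg (fun f : ℂ ≃ₗᵢ[ℝ] ℂ => f 2) ha
      refine this.trans ?_
      change (a : ℂ) * (starRingEnd ℂ) 2 = _
      rw [map_ofNat]
  obtain ⟨j, hj⟩ : ∃ j, (a : ℂ) = e j := by
    rcases hs : σ (0, 0) with ⟨o, j⟩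
    rw [hs] at key
    fin_cases o
    · refine ⟨j, ?_⟩
      have := PA_add 0 0 j
      rw [zero_add, PA_zero] at this
      exact mul_right_cancel₀ two_ne_zero (key.symm.trans this)
    · exfalso
      have n1 := congrArg Complex.normSq key
      rw [map_mul, Circle.normSq_coe] at n1
      have n2 := congrArg ph (TA_norm j)
      rw [map_add, map_mul, map_mul, ph_mk 8] at n2
      have n3 : normSq (PA (1, j)) = 4 := by
        refine n1.trans ?_
        norm_num [normSq_apply]
      rw [normSq_apply] at n3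
      have n4 : (8 : ℝ) - 4 * √3 = 4 := by
        have : ph (TA (1, j)).1 * ph (TA (1, j)).1 + ph (TA (1, j)).2 * ph (TA (1, j)).2 = 4 := n3
        push_cast at n2
        linarith
      have : √3 = 1 := by linarith
      have h3 : √3 * √3 = 3 := Real.mul_self_sqrt (by norm_num)
      rw [this] at h3
      norm_num at h3
  rcases ha with ha | ha
  · refine ⟨r j, ?_⟩
    ext z
    rw [iso_apply, lin_r, ← hj]
    exact (congrArg (fun f : ℂ ≃ₗᵢ[ℝ] ℂ => f z) ha).symm
  · refine ⟨sr (-j), ?_⟩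
    ext z
    rw [iso_apply, lin_sr, map_mul, e_conj, neg_neg, ← hj]
    exact (congrArg (fun f : ℂ ≃ₗᵢ[ℝ] ℂ => f z) ha).symm

end Pool.Agent.H.MP_b542c4_co
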